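import Pool.Agent.H.MP_498700_an.B

set_option autoImplicit false

namespace Pool.Agent.Results.MP_498700_an.No
open scoped ENNReal ContDiff Topology
open MeasureTheory Set Filter Pool.Agent.H.MP_498700_an

/-- the Sobolev space W^{1,1} of the line, by weak derivatives -/
def W11 (η : ℝ → ℝ) : Prop :=
  Integrable η ∧ ∃ g : ℝ → ℝ, Integrable g ∧ ∀ φ : ℝ → ℝ, ContDiff ℝ ∞ φ → HasCompactSupport φ →
    ∫ x, η x * deriv φ x = -∫ x, g x * φ x

/-- the square of the Gagliardo seminorm of order one half -/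
noncomputable def gag (v : ℝ → ℝ) : ℝ≥0∞ := ∫⁻ x, ∫⁻ y, ‖v x - v y‖ₑ ^ 2 / ‖x - y‖ₑ ^ 2

/-- the square of the Besov seminorm -/
noncomputable def bes (u : ℝ → ℝ) : ℝ≥0∞ :=
  ⨆ (t : ℝ) (_ : t ≠ 0), ∫⁻ x, ‖u (x + t) - u x‖ₑ ^ 2 / ‖t‖ₑ

theorem result : ∃ u : ℝ → ℝ, MemLp u 2 ∧ (∀ x, |u x| ≤ 1) ∧
    (∀ η : ℝ → ℝ, W11 η → limsup (fun ε : ℝ =>
      gag (fun x => ∫ z, η z * u (x - ε * z)) / ENNReal.ofReal |Real.log ε|) (𝓝[>] 0) < ⊤) ∧
    bes u = ⊤ := by
  refine ⟨u, ⟨mu.aestronglyMeasurable, ?_⟩, fun x => g1 _ _, fun η ⟨hη, f, hf, H⟩ => ?_, ?_⟩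
  · have := W2 0
    simp only [W, U, Finset.range_zero, Finset.sum_empty, sub_zero] at this
    rw [eLpNorm_lt_top_iff_lintegral_rpow_enorm_lt_top (by simp) (by simp)]
    simpa using this.trans_lt ENNReal.ofReal_lt_top
  · obtain ⟨ζ, mζ, e⟩ := hη.1.aemeasurable
    have hζ := hη.congr e
    obtain ⟨C, hC⟩ := upper mζ hζ (integral_nonneg fun _ => norm_nonneg _)
      (transl hζ hf fun φ a b => by
        rw [← H φ a b]
        refine integral_congr_ae ?_
        filter_upwards [e] with x hx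
        rw [hx])
    refine lt_of_le_of_lt (limsup_le_of_le (a := ENNReal.ofReal C) (h := ?_)) ENNReal.ofReal_lt_top
    filter_upwards [Ioo_mem_nhdsGT (h0 0)] with ε hε
    have : (fun x => ∫ z, η z * u (x - ε * z)) = mol ζ ε u := by
      ext x
      refine integral_congr_ae ?_
      filter_upwards [e] with x hx
      rw [hx]
    rw [this, gag, G_eq (mmol mζ mu ε)]
    exact ENNReal.div_le_of_le_mul (hC ε hε)
  · refine top_unique (ENNReal.iSup_natCast ▸ iSup_le fun k => le_iSup₂_of_le (Real.pi * h k)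
      (by have := h0 k; positivity) ((lower k).trans_eq ?_))
    have := mu
    simp only [div_eq_mul_inv, D]
    rw [lintegral_mul_const _ (by fun_prop)]

end Pool.Agent.Results.MP_498700_an.No
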